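import Pool.Agent.H41.HI.Hand

/-!
# Classes closed under substructures containing finitely many named points
-/

set_option autoImplicit false

open Set Pool.Agent.TK

namespace Pool.Agent.H71.S2C

open Pool.Agent.H41.HI.Hand Pool.Agent.H41.RLH

variable {r : ℕ} {C : Type}

/-- extension of a map by the identity on the first `m` points -/
def ext (m : ℕ) (f : ℕ → ℕ) (n : ℕ) : ℕ := if n < m then n else f (n - m) + m

lemma ext_lt {m : ℕ} (f : ℕ → ℕ) {n : ℕ} (h : n < m) : ext m f n = n := if_pos h

lemma ext_add (m : ℕ) (f : ℕ → ℕ) (n : ℕ) : ext m f (n + m) = f n + m := by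
  unfold ext
  rw [if_neg (by omega), Nat.add_sub_cancel]

lemma ext_injective (m : ℕ) {f : ℕ → ℕ} (hf : Function.Injective f) :
    Function.Injective (ext m f) := by
  intro a b h
  unfold ext at h
  split_ifs at h with h1 h2 h2
  · exact h
  · omega
  · omega
  · have := hf (Nat.add_right_cancel h)
    omega

lemma ext_comp (m : ℕ) (f g : ℕ → ℕ) (n : ℕ) : ext m f (ext m g n) = ext m (f ∘ g) n := by
  by_cases h : n < m
  · rw [ext_lt g h, ext_lt _ h, ext_lt _ h]
  · obtain ⟨k, rfl⟩ : ∃ k, n = k + m := ⟨n - m, by omega⟩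
    rw [ext_add, ext_add, ext_add]
    rfl

lemma ext_id (m n : ℕ) : ext m id n = n := by
  unfold ext
  split_ifs
  · rfl
  · simp only [id]
    omega

/-- extension of a permutation -/
def extP (m : ℕ) (g : Equiv.Perm ℕ) : Equiv.Perm ℕ where
  toFun := ext m g
  invFun := ext m g.symm
  left_inv n := by
    rw [ext_comp]
    have : (g.symm : ℕ → ℕ) ∘ g = id := by
      funext k
      simp
    rw [this, ext_id]
  right_inv n := by
    rw [ext_comp]
    have : (g : ℕ → ℕ) ∘ g.symm = id := by
      funext k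
      simp
    rw [this, ext_id]

/-- labels of the structure with named points -/
abbrev Lb (r m : ℕ) (C : Type) : Type := (Fin r → Option (Fin m)) → C

/-- the tuple with given values on the named places -/
def mix {m : ℕ} (o : Fin r → Option (Fin m)) (t : Fin r → ℕ) : Fin r → ℕ := fun i =>
  match o i with
  | some j => (j : ℕ)
  | none => t i + m

/-- the structure without the named points -/
def code (m : ℕ) (x : Structure r C) : Structure r (Lb r m C) := fun t o => x (mix o t)

/-- the code of the named places of a tuple -/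
def nm (m : ℕ) (s : Fin r → ℕ) : Fin r → Option (Fin m) := fun i =>
  if h : s i < m then some ⟨s i, h⟩ else none

/-- the rest of a tuple -/
def rs (m : ℕ) (s : Fin r → ℕ) : Fin r → ℕ := fun i => s i - m

/-- back -/
def back (m : ℕ) (y : Structure r (Lb r m C)) : Structure r C := fun s => y (rs m s) (nm m s)

lemma mix_nm (m : ℕ) (s : Fin r → ℕ) : mix (nm m s) (rs m s) = s := by
  funext i
  unfold mix nm rs
  by_cases h : s i < m
  · simp [h]
  · simp only [h, dite_false]
    omega

lemma back_code (m : ℕ) (x : Structure r C) : back m (code m x) = x := by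
  funext s
  change x (mix (nm m s) (rs m s)) = x s
  rw [mix_nm]

lemma mix_ext (m : ℕ) (f : ℕ → ℕ) (o : Fin r → Option (Fin m)) (t : Fin r → ℕ) :
    ext m f ∘ mix o t = mix o (f ∘ t) := by
  funext i
  unfold mix
  rcases h : o i with _ | j
  · simp only [Function.comp, h]
    exact ext_add m f (t i)
  · simp only [Function.comp, h]
    exact ext_lt f j.2

lemma code_sub (m : ℕ) (x : Structure r C) (f : ℕ → ℕ) :
    code m (fun a => x (ext m f ∘ a)) = fun t => code m x (f ∘ t) := by
  funext t o
  change x (ext m f ∘ mix o t) = x (mix o (f ∘ t))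
  rw [mix_ext]

lemma iso_of_code {m : ℕ} {x y : Structure r C} {g : Equiv.Perm ℕ}
    (h : IsIsomorphism (code m x) (code m y) g) : IsIsomorphism x y (extP m g) := by
  intro s
  have h1 := congrFun (h (rs m s)) (nm m s)
  change y (mix (nm m s) (g ∘ rs m s)) = x (mix (nm m s) (rs m s)) at h1
  rw [← mix_ext, mix_nm] at h1
  exact h1

lemma le_of_fix {m : ℕ} {g : Equiv.Perm ℕ} (hg : ∀ i < m, g i = i) (n : ℕ) : m ≤ g (n + m) := by
  by_contra h
  have h1 : g (g (n + m)) = g (n + m) := hg _ (by omega)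
  have h2 := g.injective h1
  omega

/-- restriction of a permutation -/
def resP (m : ℕ) (g : Equiv.Perm ℕ) (hg : ∀ i < m, g i = i) : Equiv.Perm ℕ where
  toFun n := g (n + m) - m
  invFun n := g.symm (n + m) - m
  left_inv n := by
    have h1 := le_of_fix hg n
    change g.symm (g (n + m) - m + m) - m = n
    rw [Nat.sub_add_cancel h1, Equiv.symm_apply_apply, Nat.add_sub_cancel]
  right_inv n := by
    have hg' : ∀ i < m, g.symm i = i := fun i hi => by
      rw [Equiv.symm_apply_eq]
      exact (hg i hi).symm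
    have h1 := le_of_fix hg' n
    change g (g.symm (n + m) - m + m) - m = n
    rw [Nat.sub_add_cancel h1, Equiv.apply_symm_apply, Nat.add_sub_cancel]

lemma code_of_iso {m : ℕ} {x y : Structure r C} {g : Equiv.Perm ℕ} (hg : ∀ i < m, g i = i)
    (h : IsIsomorphism x y g) : IsIsomorphism (code m x) (code m y) (resP m g hg) := by
  intro t
  funext o
  change y (mix o (resP m g hg ∘ t)) = x (mix o t)
  rw [← h (mix o t)]
  congr 1
  funext i
  unfold mix
  rcases h : o i with _ | j
  · simp only [Function.comp, h]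
    change g (t i + m) - m + m = g (t i + m)
    exact Nat.sub_add_cancel (le_of_fix hg (t i))
  · simp only [Function.comp, h]
    exact (hg j j.2).symm

lemma measurable_code [MeasurableSpace C] (m : ℕ) :
    Measurable (code m : Structure r C → Structure r (Lb r m C)) := by
  refine measurable_pi_lambda _ fun t => measurable_pi_lambda _ fun o => ?_
  exact measurable_pi_apply _

lemma measurable_back [MeasurableSpace C] (m : ℕ) :
    Measurable (back m : Structure r (Lb r m C) → Structure r C) := by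
  refine measurable_pi_lambda _ fun s => ?_
  exact (measurable_pi_apply (nm m s)).comp (measurable_pi_apply (rs m s))

/-- A perfect family over named points contains a perfect family. -/
theorem perf_of_named [MeasurableSpace C] [StandardBorelSpace C] (m : ℕ)
    (F : (ℕ → Bool) → Structure r C) (hF : Measurable F)
    (h : ∀ u v, u ≠ v → ¬ ∃ g : Equiv.Perm ℕ, (∀ i < m, g i = i) ∧
      IsIsomorphism (F u) (F v) g) :
    ∃ e : (ℕ → Bool) → (ℕ → Bool), Measurable e ∧
      ∀ u v, u ≠ v → ¬ ∃ g, IsIsomorphism (F (e u)) (F (e v)) g := by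
  classical
  have c0 : C := F (fun _ => true) fun _ => 0
  have hR : MeasureTheory.AnalyticSet
      {p : (ℕ → Bool) × (ℕ → Bool) | Iso (toSt (enc c0 (F p.1))) (toSt (enc c0 (F p.2)))} := by
    have hf : Measurable fun K => toSt (enc c0 (F K)) :=
      measurable_const.prodMk ((measurable_enc c0).comp hF)
    have h1 := Pool.Agent.H71.DST.analyticSet_proj
      (measurableSet_iso (P := (ℕ → Bool) × (ℕ → Bool)) (f := fun p => toSt (enc c0 (F p.1)))
        (f' := fun p => toSt (enc c0 (F p.2))) (hf.comp measurable_fst) (hf.comp measurable_snd))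
    have h2 : {p : (ℕ → Bool) × (ℕ → Bool) |
          Iso (toSt (enc c0 (F p.1))) (toSt (enc c0 (F p.2)))} =
        {x | ∃ y : (ℕ → ℕ) × (ℕ → ℕ), (x, y) ∈
          {p : ((ℕ → Bool) × (ℕ → Bool)) × ((ℕ → ℕ) × (ℕ → ℕ)) | (∀ n, p.2.1 (p.2.2 n) = n) ∧
      (∀ n, p.2.2 (p.2.1 n) = n) ∧
      (∀ u v, (toSt (enc c0 (F p.1.1))).1 u v =
        (toSt (enc c0 (F p.1.2))).1 (p.2.1 u) (p.2.1 v)) ∧
      ∀ l : List ℕ, (toSt (enc c0 (F p.1.1))).2 l =
        (toSt (enc c0 (F p.1.2))).2 (l.map p.2.1)}} := by
      ext p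
      exact iso_iff
    rw [h2]
    exact h1
  have hsec : ∀ K, {K' | (K, K') ∈ {p : (ℕ → Bool) × (ℕ → Bool) |
      Iso (toSt (enc c0 (F p.1))) (toSt (enc c0 (F p.2)))}}.Countable := by
    intro K
    have hch : ∀ y : {K' // Iso (toSt (enc c0 (F K))) (toSt (enc c0 (F K')))},
        ∃ g : Equiv.Perm ℕ, IsIsomorphism (F K) (F y.1) g := fun y => by
      obtain ⟨g, hg⟩ := iso_toSt.1 y.2
      exact ⟨g, (liso_enc c0).1 hg⟩
    choose k hk using hch
    have hinj' : Function.Injective
        (fun y : {K' // Iso (toSt (enc c0 (F K))) (toSt (enc c0 (F K')))} =>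
          fun i : Fin m => (k y).symm i) := by
      intro y y' hyy
      by_contra hne
      have hne' : y.1 ≠ y'.1 := fun e => hne (Subtype.ext e)
      refine h y.1 y'.1 hne' ⟨(k y).symm.trans (k y'), fun i hi => ?_, fun a => ?_⟩
      · have h1 := congrFun hyy ⟨i, hi⟩
        change (k y).symm i = (k y').symm i at h1
        rw [Equiv.trans_apply, h1, Equiv.apply_symm_apply]
      · have e1 := hk y ((k y).symm ∘ a)
        have e2 := hk y' ((k y).symm ∘ a)
        have e3 : (k y : ℕ → ℕ) ∘ ((k y).symm ∘ a) = a := by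
          funext i
          simp
        rw [e3] at e1
        rw [e1, ← e2]
        rfl
    exact (countable_coe_iff
      (s := {K' | Iso (toSt (enc c0 (F K))) (toSt (enc c0 (F K')))})).1
      (Function.Injective.countable hinj')
  obtain ⟨e, he1, -, he3⟩ := Pool.Agent.H71.DST.exists_perfect_of_countable_sections hR hsec
  refine ⟨e, he1.measurable, fun u v huv hg => he3 u v huv ?_⟩
  obtain ⟨g, hg⟩ := hg
  exact iso_toSt.2 ⟨g, (liso_enc c0).2 hg⟩

/-- Vaught's conjecture for `Σ_2`-classes of bounded arity. -/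
theorem sigma_of_hereditary (r : ℕ)
    (hH : ∀ (C : Type) [MeasurableSpace C] [StandardBorelSpace C] (X : Set (Structure r C)),
      IsAnalytic X → (∀ x ∈ X, Substructures x ⊆ X) →
        CountablyManyTypes X ∨ PerfectlyManyTypes X)
    {C : Type} [MeasurableSpace C] [StandardBorelSpace C] (k : ℕ → ℕ)
    (Y : ℕ → Set (Structure r C)) (hY : ∀ n, IsAnalytic (Y n))
    (hsub : ∀ n, ∀ x ∈ Y n, ∀ f : ℕ → ℕ, Function.Injective f → (∀ i < k n, f i = i) →
      (fun a => x (f ∘ a)) ∈ Y n) :
    CountablyManyTypes (⋃ n, Y n) ∨ PerfectlyManyTypes (⋃ n, Y n) := by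
  classical
  have hm : ∀ n, CountablyManyTypes (Y n) ∨ PerfectlyManyTypes (Y n) := by
    intro n
    have hX : IsAnalytic (code (k n) '' Y n) := by
      rcases hY n with h | ⟨f, hf, h⟩
      · left
        rw [h, image_empty]
      · right
        exact ⟨fun z => code (k n) (f z), (measurable_code (k n)).comp hf, by
          rw [← h, ← range_comp]
          rfl⟩
    have hXs : ∀ x ∈ code (k n) '' Y n, Substructures x ⊆ code (k n) '' Y n := by
      rintro _ ⟨x, hx, rfl⟩ _ ⟨f, hf, rfl⟩
      refine ⟨fun a => x (ext (k n) f ∘ a), hsub n x hx _ (ext_injective (k n) hf)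
        fun i hi => ext_lt f hi, ?_⟩
      exact code_sub (k n) x f
    rcases hH (Lb r (k n) C) (code (k n) '' Y n) hX hXs with ⟨D, hD, h1⟩ | ⟨F, hF1, hF2, hF3⟩
    · left
      have hch : ∀ y : Structure r (Lb r (k n) C), ∃ x : Structure r C,
          (∃ x' ∈ Y n, ∃ g, IsIsomorphism (code (k n) x') y g) →
            x ∈ Y n ∧ ∃ g, IsIsomorphism (code (k n) x) y g := by
        intro y
        by_cases h : ∃ x' ∈ Y n, ∃ g, IsIsomorphism (code (k n) x') y g
        · obtain ⟨x', h2, h3⟩ := h
          exact ⟨x', fun _ => ⟨h2, h3⟩⟩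
        · exact ⟨back (k n) y, fun h' => absurd h' h⟩
      choose φ hφ using hch
      refine ⟨φ '' D, hD.image _, fun x hx => ?_⟩
      obtain ⟨y, hy, g, hg⟩ := h1 _ ⟨x, hx, rfl⟩
      obtain ⟨-, g', hg'⟩ := hφ y ⟨x, hx, g, hg⟩
      refine ⟨φ y, ⟨y, hy, rfl⟩, extP (k n) (g.trans g'.symm), iso_of_code ?_⟩
      intro a
      have e1 := hg a
      have e2 := hg' (g'.symm ∘ (g ∘ a))
      have e3 : (g' : ℕ → ℕ) ∘ (g'.symm ∘ (g ∘ a)) = g ∘ a := by
        funext i
        simp
      rw [e3] at e2
      rw [← e1, e2]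
      rfl
    · right
      have hFc : ∀ u, code (k n) (back (k n) (F u)) = F u ∧ back (k n) (F u) ∈ Y n := by
        intro u
        obtain ⟨x, hx, hxu⟩ := hF2 u
        rw [← hxu, back_code]
        exact ⟨rfl, hx⟩
      have hne : ∀ u v, u ≠ v → ¬ ∃ g : Equiv.Perm ℕ, (∀ i < k n, g i = i) ∧
          IsIsomorphism (back (k n) (F u)) (back (k n) (F v)) g := by
        rintro u v huv ⟨g, hg, hg'⟩
        apply hF3 u v huv
        have h2 := code_of_iso hg hg'
        rw [(hFc u).1, (hFc v).1] at h2
        exact ⟨_, h2⟩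
      obtain ⟨e, he, he'⟩ := perf_of_named (k n) (fun u => back (k n) (F u))
        ((measurable_back (k n)).comp hF1) hne
      exact ⟨fun u => back (k n) (F (e u)), (measurable_back (k n)).comp (hF1.comp he),
        fun u => (hFc _).2, he'⟩
  by_cases h : ∃ n, PerfectlyManyTypes (Y n)
  · right
    obtain ⟨n, F, h1, h2, h3⟩ := h
    exact ⟨F, h1, fun u => mem_iUnion.2 ⟨n, h2 u⟩, h3⟩
  · left
    have h1 : ∀ n, CountablyManyTypes (Y n) := fun n =>
      (hm n).resolve_right fun h2 => h ⟨n, h2⟩
    choose D hD hD' using h1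
    refine ⟨⋃ n, D n, countable_iUnion hD, fun x hx => ?_⟩
    obtain ⟨n, hx⟩ := mem_iUnion.1 hx
    obtain ⟨y, hy, hg⟩ := hD' n x hx
    exact ⟨y, mem_iUnion.2 ⟨n, hy⟩, hg⟩

end Pool.Agent.H71.S2C
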